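import Pool.Agent.Helper86.XE.Core

/-!
# XU, L4: the sizes of the resultant and of `Delta`, constants `c log q`
-/

set_option autoImplicit false

open Polynomial

namespace Pool.Agent.Helper86.XU

open Pool.Agent.Helper84.AA
open Pool.Agent.Helper86.XE

/-- `res_bound` with its explicit constant. -/
theorem res_bound_expl (q : ℕ) (hq : 1 ≤ q) : ResBound q (3 * Real.log (32 * q ^ 2)) := by
  have hq' : (1 : ℝ) ≤ q := by exact_mod_cast hq
  have hqz : (1 : ℤ) ≤ q := by exact_mod_cast hq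
  set a : ℝ := Real.log (32 * q ^ 2) with ha
  have ha0 : 0 < a := Real.log_pos (by nlinarith)
  intro g hg u t hh
  have hg' : (1 : ℝ) ≤ g := by exact_mod_cast hg
  have hH : X * u + C t - C ((X * u + C t).coeff 0) = X * u := by simp
  have hd : (X * u).natDegree ≤ g := by
    have := natDegree_le hh
    rwa [hH] at this
  have hc : ∀ i, |(X * u).coeff i| ≤ (4 * q : ℤ) ^ g := by
    intro i
    have := sub_coeff_bd hq hh i
    rwa [hH] at this
  have hO := odO_bd hq hd hc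
  have hV := evE_bd hq hd hc
  have ht : |t| ≤ (4 * q : ℤ) ^ g := by
    have := coeff_bd hq hh 0
    simpa using this
  have hqE : (4 * q : ℤ) ^ g ≤ (32 * q ^ 2 : ℤ) ^ g :=
    pow_le_pow_left₀ (by positivity) (by nlinarith) g
  set E : ℤ := (32 * q ^ 2 : ℤ) ^ g with hEdef
  have hE0 : 0 ≤ E := by positivity
  have hE : (E : ℝ) = Real.exp (a * g) := by
    have h1 : Real.exp (a * g) = Real.exp a ^ g := by rw [mul_comm, Real.exp_nat_mul]
    rw [h1, ha, Real.exp_log (by positivity), hEdef]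
    push_cast
    rfl
  have hEE : Real.exp (a * g) ≤ Real.exp (3 * a * g) :=
    Real.exp_le_exp.mpr (by nlinarith [mul_pos ha0 (by linarith : (0 : ℝ) < g)])
  constructor
  · refine le_trans ?_ hEE
    rw [← hE]
    exact_mod_cast hO
  · have h1 : |(t + evE q (X * u)) ^ 2 - 4 * q * odO q (X * u) ^ 2| ≤ 32 * q ^ 2 * E ^ 2 := by
      have e1 : (t + evE q (X * u)) ^ 2 ≤ (2 * E) ^ 2 := by
        rw [← sq_abs]
        have : |t + evE q (X * u)| ≤ 2 * E := by
          refine (abs_add_le _ _).trans ?_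
          linarith
        exact pow_le_pow_left₀ (abs_nonneg _) this 2
      have e2 : odO q (X * u) ^ 2 ≤ E ^ 2 := by
        rw [← sq_abs]
        exact pow_le_pow_left₀ (abs_nonneg _) hO 2
      have e3 : 0 ≤ (t + evE q (X * u)) ^ 2 := sq_nonneg _
      have e4 : 0 ≤ odO q (X * u) ^ 2 := sq_nonneg _
      have e5 : 4 * (q : ℤ) * odO q (X * u) ^ 2 ≤ 4 * q * E ^ 2 :=
        mul_le_mul_of_nonneg_left e2 (by linarith)
      have e6 : 0 ≤ 4 * (q : ℤ) * odO q (X * u) ^ 2 := by positivity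
      have e7 : (0 : ℤ) ≤ E ^ 2 := by positivity
      have e8 : 4 * (q : ℤ) * E ^ 2 ≤ 32 * q ^ 2 * E ^ 2 :=
        mul_le_mul_of_nonneg_right (by nlinarith) e7
      have e9 : 4 * E ^ 2 ≤ 32 * q ^ 2 * E ^ 2 :=
        mul_le_mul_of_nonneg_right (by nlinarith) e7
      rw [abs_le]
      constructor
      · nlinarith
      · nlinarith
    have h2 : |(((t + evE q (X * u)) ^ 2 - 4 * q * odO q (X * u) ^ 2 : ℤ) : ℝ)| ≤
        32 * (q : ℝ) ^ 2 * (E : ℝ) ^ 2 := by
      exact_mod_cast h1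
    refine h2.trans ?_
    rw [hE]
    have h3 : (32 * (q : ℝ) ^ 2) ≤ Real.exp (a * g) := by
      calc (32 * (q : ℝ) ^ 2) = Real.exp a := by rw [ha, Real.exp_log (by positivity)]
        _ ≤ _ := Real.exp_le_exp.mpr (le_mul_of_one_le_right ha0.le hg')
    calc 32 * (q : ℝ) ^ 2 * Real.exp (a * g) ^ 2 ≤ Real.exp (a * g) * Real.exp (a * g) ^ 2 :=
          mul_le_mul_of_nonneg_right h3 (by positivity)
      _ = Real.exp (3 * a * g) := by
        rw [sq, ← Real.exp_add, ← Real.exp_add]; congr 1; ring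


theorem log_sixteen_le {q : ℕ} (hq : 16 ≤ q) : 4 * Real.log 2 ≤ Real.log q := by
  have h : (16 : ℝ) ≤ q := by exact_mod_cast hq
  have h1 := Real.log_le_log (by norm_num) h
  have h2 : Real.log 16 = 4 * Real.log 2 := by
    rw [show (16 : ℝ) = 2 ^ 4 by norm_num, Real.log_pow]
    norm_num
  linarith

theorem log_32_le {q : ℕ} (hq : 16 ≤ q) : Real.log (32 * (q : ℝ) ^ 2) ≤ 13 / 4 * Real.log q := by
  have h : (16 : ℝ) ≤ q := by exact_mod_cast hq
  have h1 := log_sixteen_le hq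
  rw [Real.log_mul (by norm_num) (by positivity), Real.log_pow,
    show (32 : ℝ) = 2 ^ 5 by norm_num, Real.log_pow]
  push_cast
  linarith

theorem log_2_le {q : ℕ} (hq : 16 ≤ q) : Real.log (2 * (q : ℝ)) ≤ 5 / 4 * Real.log q := by
  have h : (16 : ℝ) ≤ q := by exact_mod_cast hq
  have h1 := log_sixteen_le hq
  rw [Real.log_mul (by norm_num) (by positivity)]
  linarith

theorem log_20_le {q : ℕ} (hq : 16 ≤ q) : Real.log (20 * (q : ℝ)) ≤ 9 / 4 * Real.log q := by
  have h : (16 : ℝ) ≤ q := by exact_mod_cast hq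
  have h1 := log_sixteen_le hq
  have h2 : Real.log 20 ≤ 5 * Real.log 2 := by
    have h3 : (5 : ℝ) * Real.log 2 = Real.log (2 ^ 5) := by
      rw [Real.log_pow]
      norm_num
    rw [h3]
    exact Real.log_le_log (by norm_num) (by norm_num)
  rw [Real.log_mul (by norm_num) (by positivity)]
  linarith

/-- L4a: `res_bound` with its explicit constant `3 log (32 q^2)`, at most `c log q`. -/
theorem res_boundU : ∃ c : ℝ, 0 < c ∧ ∀ q : ℕ, 16 ≤ q → ResBound q (c * Real.log q) := by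
  refine ⟨10, by norm_num, ?_⟩
  intro q hq g hg u t hh
  have h1 := res_bound_expl q (by omega) g hg u t hh
  have h2 := log_32_le hq
  have h3 := log_sixteen_le hq
  have h4 : (0 : ℝ) < Real.log 2 := Real.log_pos (by norm_num)
  have h5 : Real.exp (3 * Real.log (32 * (q : ℝ) ^ 2) * g) ≤ Real.exp (10 * Real.log q * g) := by
    apply Real.exp_le_exp.mpr
    exact mul_le_mul_of_nonneg_right (by linarith) (Nat.cast_nonneg g)
  exact ⟨h1.1.trans h5, h1.2.trans h5⟩

/-- `delta_bound` with its explicit constant. -/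
theorem delta_bound_expl (q : ℕ) (hq : 1 ≤ q) : ∀ g : ℕ, 1 ≤ g → ∀ h : ℤ[X],
    IsTrace q g h → |((Delta q (h - C (h.coeff 0)) : ℤ) : ℝ)| ≤
      Real.exp ((Real.log (2 * q) + Real.log (32 * q ^ 2) + 9 +
        3 * (Real.log (20 * q) + 1 + 2 * Real.log (32 * q ^ 2))) * g ^ 2) := by
  have hq' : (1 : ℝ) ≤ q := by exact_mod_cast hq
  have hl1 : 0 ≤ Real.log (32 * q ^ 2) := Real.log_nonneg (by nlinarith)
  have hl2 : 0 ≤ Real.log (20 * q) := Real.log_nonneg (by nlinarith)
  have hl3 : 0 ≤ Real.log (2 * q) := Real.log_nonneg (by nlinarith)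
  set a : ℝ := Real.log (32 * q ^ 2) with ha
  set b : ℝ := Real.log (20 * q) with hb
  intro g hg h hh
  have hg' : (1 : ℝ) ≤ g := by exact_mod_cast hg
  set H := h - C (h.coeff 0) with hH
  have hd : H.natDegree ≤ g := natDegree_le hh
  have hc : ∀ i, |H.coeff i| ≤ (4 * q : ℤ) ^ g := sub_coeff_bd hq hh
  set B : ℤ := ((12 * g + 4 + 4 * q : ℕ) : ℤ) * ((32 * q ^ 2 : ℤ) ^ g) ^ 2 with hBdef
  have hGd : (Gpol q H).natDegree ≤ 2 * g := by
    rw [Gpol]
    refine natDegree_sub_C.le.trans ?_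
    refine natDegree_pow_le.trans ?_
    rw [natDegree_sub_C]
    omega
  have hDd : (derivative H).natDegree ≤ g := (natDegree_derivative_le H).trans (by omega)
  have hqz : (1 : ℤ) ≤ q := by exact_mod_cast hq
  have hB1 : 1 ≤ B := by
    have h1 : (1 : ℤ) ≤ ((12 * g + 4 + 4 * q : ℕ) : ℤ) := by
      exact_mod_cast (by omega : 1 ≤ 12 * g + 4 + 4 * q)
    have h2 : (1 : ℤ) ≤ ((32 * q ^ 2 : ℤ) ^ g) ^ 2 := one_le_pow₀ (one_le_pow₀ (by nlinarith))
    nlinarith
  have hres : |(Gpol q H).resultant (derivative H)| ≤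
      (((3 * g) ^ (3 * g) : ℕ) : ℤ) * B ^ (3 * g) :=
    res_bd (by omega) hB1 (fun i hi => Gpol_coeff_bd hq hd hc hi)
      (fun i hi => deriv_coeff_bd hq hc hi)
  have hO := odO_bd hq hd hc
  -- real versions
  have hE : (((32 * q ^ 2 : ℤ) ^ g : ℤ) : ℝ) = Real.exp (a * g) := by
    have h1 : Real.exp (a * g) = Real.exp a ^ g := by rw [mul_comm, Real.exp_nat_mul]
    rw [h1, ha, Real.exp_log (by positivity)]
    push_cast
    rfl
  have hBr : (B : ℝ) ≤ Real.exp ((b + 1 + 2 * a) * g) := by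
    rw [hBdef, Int.cast_mul, Int.cast_pow, hE]
    have h1 : (((12 * g + 4 + 4 * q : ℕ) : ℤ) : ℝ) ≤ Real.exp ((b + 1) * g) := by
      have h2 : (20 * q : ℝ) ≤ Real.exp (b * g) := by
        have : (20 * q : ℝ) = Real.exp b := by rw [hb, Real.exp_log (by positivity)]
        rw [this]
        apply Real.exp_le_exp.mpr
        nlinarith
      have h3 : (g : ℝ) ≤ Real.exp (1 * g) := by
        have := Real.add_one_le_exp (1 * (g : ℝ))
        linarith
      calc (((12 * g + 4 + 4 * q : ℕ) : ℤ) : ℝ) = 12 * g + 4 + 4 * q := by push_cast; ring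
        _ ≤ 20 * q * g := by nlinarith
        _ ≤ Real.exp (b * g) * Real.exp (1 * g) := by gcongr
        _ = Real.exp ((b + 1) * g) := by rw [← Real.exp_add]; ring_nf
    calc (((12 * g + 4 + 4 * q : ℕ) : ℤ) : ℝ) * Real.exp (a * g) ^ 2
        ≤ Real.exp ((b + 1) * g) * Real.exp (a * g) ^ 2 := by gcongr
      _ = Real.exp ((b + 1 + 2 * a) * g) := by
        rw [sq, ← Real.exp_add, ← Real.exp_add]; ring_nf
  have hB0 : (0 : ℝ) ≤ B := by exact_mod_cast (by linarith : (0 : ℤ) ≤ B)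
  have hresr : |(((Gpol q H).resultant (derivative H) : ℤ) : ℝ)| ≤
      Real.exp (9 * g ^ 2) * Real.exp (3 * (b + 1 + 2 * a) * g ^ 2) := by
    have h1 : |(((Gpol q H).resultant (derivative H) : ℤ) : ℝ)| ≤
        ((3 * g : ℕ) : ℝ) ^ (3 * g) * (B : ℝ) ^ (3 * g) := by
      exact_mod_cast hres
    refine h1.trans ?_
    gcongr
    · have h2 : ((3 * g : ℕ) : ℝ) ≤ Real.exp (3 * g) := by
        have := Real.add_one_le_exp (3 * (g : ℝ))
        push_cast
        linarith
      calc ((3 * g : ℕ) : ℝ) ^ (3 * g) ≤ Real.exp (3 * g) ^ (3 * g) := by gcongr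
        _ = Real.exp (9 * g ^ 2) := by
          rw [← Real.exp_nat_mul]; congr 1; push_cast; ring
    · calc (B : ℝ) ^ (3 * g) ≤ Real.exp ((b + 1 + 2 * a) * g) ^ (3 * g) := by gcongr
        _ = Real.exp (3 * (b + 1 + 2 * a) * g ^ 2) := by
          rw [← Real.exp_nat_mul]; congr 1; push_cast; ring
  have hOr : |((odO q H : ℤ) : ℝ)| ≤ Real.exp (a * g ^ 2) := by
    have h1 : |((odO q H : ℤ) : ℝ)| ≤ Real.exp (a * g) := by
      rw [← hE]; exact_mod_cast hO
    refine h1.trans (Real.exp_le_exp.mpr ?_)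
    have : (g : ℝ) ≤ g ^ 2 := by nlinarith
    exact mul_le_mul_of_nonneg_left this hl1
  have h2q : |((2 * q : ℝ))| ≤ Real.exp (Real.log (2 * q) * g ^ 2) := by
    rw [abs_of_nonneg (by positivity)]
    calc (2 * q : ℝ) = Real.exp (Real.log (2 * q)) := by rw [Real.exp_log (by positivity)]
      _ ≤ _ := Real.exp_le_exp.mpr (le_mul_of_one_le_right hl3 (by nlinarith))
  calc |((Delta q H : ℤ) : ℝ)| = |((2 * q : ℝ))| * |((odO q H : ℤ) : ℝ)| *
        |(((Gpol q H).resultant (derivative H) : ℤ) : ℝ)| := by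
        rw [← abs_mul, ← abs_mul, Delta]; push_cast; rfl
    _ ≤ Real.exp (Real.log (2 * q) * g ^ 2) * Real.exp (a * g ^ 2) *
        (Real.exp (9 * g ^ 2) * Real.exp (3 * (b + 1 + 2 * a) * g ^ 2)) := by gcongr
    _ = Real.exp ((Real.log (2 * q) + a + 9 + 3 * (b + 1 + 2 * a)) * g ^ 2) := by
        rw [← Real.exp_add, ← Real.exp_add, ← Real.exp_add]; congr 1; ring


/-- L4b: `delta_bound` with its explicit constant, at most `c log q`. -/
theorem delta_boundU : ∃ c : ℝ, 0 < c ∧ ∀ q : ℕ, 16 ≤ q → ∀ g : ℕ, 1 ≤ g → ∀ h : ℤ[X],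
    IsTrace q g h → |((Delta q (h - C (h.coeff 0)) : ℤ) : ℝ)| ≤
      Real.exp (c * Real.log q * (g : ℝ) ^ 2) := by
  refine ⟨36, by norm_num, ?_⟩
  intro q hq g hg h hh
  refine (delta_bound_expl q (by omega) g hg h hh).trans ?_
  have h2 := log_32_le hq
  have h3 := log_sixteen_le hq
  have h4 := Real.log_two_gt_d9
  have h5 := log_2_le hq
  have h6 := log_20_le hq
  apply Real.exp_le_exp.mpr
  exact mul_le_mul_of_nonneg_right (by linarith) (by positivity)

end Pool.Agent.Helper86.XU
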